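import Pool.Agent.Q58.OAO.Defs

/-!
# Functions of finitely many coordinates and their means
-/

set_option autoImplicit false

namespace Pool.Agent.Q58.OAO

open Finset

/-- sequences of natural numbers -/
abbrev X := ℕ → ℕ

/-- `x` depends only on the coordinates `< n`. -/
def Dep (n : ℕ) (x : X → ℝ) : Prop := ∀ z z' : X, (∀ i < n, z i = z' i) → x z = x z'

lemma Dep.mono {m n : ℕ} {x : X → ℝ} (h : Dep m x) (hmn : m ≤ n) : Dep n x :=
  fun z z' hz => h z z' fun i hi => hz i (lt_of_lt_of_le hi hmn)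

lemma Dep.add {n : ℕ} {x y : X → ℝ} (hx : Dep n x) (hy : Dep n y) : Dep n (x + y) :=
  fun z z' hz => by simp only [Pi.add_apply, hx z z' hz, hy z z' hz]

lemma Dep.mul {n : ℕ} {x y : X → ℝ} (hx : Dep n x) (hy : Dep n y) : Dep n (x * y) :=
  fun z z' hz => by simp only [Pi.mul_apply, hx z z' hz, hy z z' hz]

lemma Dep.smul {n : ℕ} {x : X → ℝ} (c : ℝ) (hx : Dep n x) : Dep n (c • x) :=
  fun z z' hz => by simp only [Pi.smul_apply, hx z z' hz]

lemma Dep.const (n : ℕ) (c : ℝ) : Dep n (fun _ => c) := fun _ _ _ => rfl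

lemma Dep.one_sub {n : ℕ} {x : X → ℝ} (hx : Dep n x) : Dep n (1 - x) :=
  fun z z' hz => by simp only [Pi.sub_apply, hx z z' hz, Pi.one_apply]

/-- mean over the `n`-th coordinate in `{0, ..., n + 1}` -/
noncomputable def avg (n : ℕ) (x : X → ℝ) : X → ℝ :=
  fun z => (∑ j ∈ range (n + 2), x (Function.update z n j)) / (n + 2)

/-- mean over the coordinates `< n` -/
noncomputable def I : ℕ → (X → ℝ) → ℝ
  | 0, x => x 0
  | n + 1, x => I n (avg n x)

lemma avg_add (n : ℕ) (x y : X → ℝ) : avg n (x + y) = avg n x + avg n y := by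
  funext z
  simp only [avg, Pi.add_apply, sum_add_distrib, add_div]

lemma avg_smul (n : ℕ) (c : ℝ) (x : X → ℝ) : avg n (c • x) = c • avg n x := by
  funext z
  simp only [avg, Pi.smul_apply, smul_eq_mul, ← mul_sum, mul_div_assoc]

lemma avg_mono (n : ℕ) {x y : X → ℝ} (h : x ≤ y) : avg n x ≤ avg n y := by
  intro z
  simp only [avg]
  have : (0:ℝ) < n + 2 := by positivity
  gcongr with j hj
  exact h _

lemma I_add (n : ℕ) (x y : X → ℝ) : I n (x + y) = I n x + I n y := by
  induction n generalizing x y with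
  | zero => rfl
  | succ n ih => simp only [I, avg_add, ih]

lemma I_smul (n : ℕ) (c : ℝ) (x : X → ℝ) : I n (c • x) = c * I n x := by
  induction n generalizing x with
  | zero => rfl
  | succ n ih => simp only [I, avg_smul, ih]

lemma I_mono (n : ℕ) {x y : X → ℝ} (h : x ≤ y) : I n x ≤ I n y := by
  induction n generalizing x y with
  | zero => exact h 0
  | succ n ih => exact ih (avg_mono n h)

lemma avg_mul {n : ℕ} {x : X → ℝ} (h : Dep n x) (p : ℕ → ℝ) :
    avg n (fun z => x z * p (z n)) = (((∑ j ∈ range (n + 2), p j) / (n + 2)) • x : X → ℝ) := by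
  funext z
  simp only [avg, Pi.smul_apply, smul_eq_mul, Function.update_self]
  have h1 : ∀ j, x (Function.update z n j) = x z := fun j =>
    h _ _ fun i hi => Function.update_of_ne hi.ne _ _
  simp only [h1, ← mul_sum]
  ring

lemma avg_of_dep {n : ℕ} {x : X → ℝ} (h : Dep n x) : avg n x = x := by
  have h1 := avg_mul h (fun _ => 1)
  have h2 : (fun z => x z * (fun _ : ℕ => (1:ℝ)) (z n)) = x := by funext z; simp
  rw [h2] at h1
  rw [h1]
  have h3 : ((∑ j ∈ range (n + 2), (fun _ : ℕ => (1:ℝ)) j) / (n + 2)) = 1 := by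
    simp only [sum_const, card_range, nsmul_eq_mul, mul_one]
    push_cast
    have : (n:ℝ) + 2 ≠ 0 := by positivity
    field_simp
  rw [h3, one_smul]

lemma I_stable {n m : ℕ} {x : X → ℝ} (h : Dep n x) (hm : n ≤ m) : I m x = I n x := by
  induction m, hm using Nat.le_induction with
  | base => rfl
  | succ m hm ih => rw [I, avg_of_dep (h.mono hm), ih]

open Classical in
/-- the mean of a function of finitely many coordinates -/
noncomputable def J (x : X → ℝ) : ℝ := if h : ∃ n, Dep n x then I (Nat.find h) x else 0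

open Classical in
lemma J_eq {n : ℕ} {x : X → ℝ} (h : Dep n x) : J x = I n x := by
  have h' : ∃ n, Dep n x := ⟨n, h⟩
  rw [J, dif_pos h']
  rcases le_total (Nat.find h') n with h1 | h1
  · exact (I_stable (Nat.find_spec h') h1).symm
  · exact I_stable h h1

/-- finite depth -/
def Fin (x : X → ℝ) : Prop := ∃ n, Dep n x

lemma Fin.add {x y : X → ℝ} (hx : Fin x) (hy : Fin y) : Fin (x + y) := by
  obtain ⟨n, hn⟩ := hx
  obtain ⟨m, hm⟩ := hy
  exact ⟨max n m, (hn.mono (le_max_left _ _)).add (hm.mono (le_max_right _ _))⟩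

lemma Fin.mul {x y : X → ℝ} (hx : Fin x) (hy : Fin y) : Fin (x * y) := by
  obtain ⟨n, hn⟩ := hx
  obtain ⟨m, hm⟩ := hy
  exact ⟨max n m, (hn.mono (le_max_left _ _)).mul (hm.mono (le_max_right _ _))⟩

lemma Fin.one_sub {x : X → ℝ} (hx : Fin x) : Fin (1 - x) := by
  obtain ⟨n, hn⟩ := hx
  exact ⟨n, hn.one_sub⟩

lemma J_add {x y : X → ℝ} (hx : Fin x) (hy : Fin y) : J (x + y) = J x + J y := by
  obtain ⟨n, hn⟩ := hx
  obtain ⟨m, hm⟩ := hy
  have h1 := hn.mono (le_max_left n m)
  have h2 := hm.mono (le_max_right n m)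
  rw [J_eq h1, J_eq h2, J_eq (h1.add h2), I_add]

lemma J_mono {x y : X → ℝ} (hx : Fin x) (hy : Fin y) (h : x ≤ y) : J x ≤ J y := by
  obtain ⟨n, hn⟩ := hx
  obtain ⟨m, hm⟩ := hy
  have h1 := hn.mono (le_max_left n m)
  have h2 := hm.mono (le_max_right n m)
  rw [J_eq h1, J_eq h2]
  exact I_mono _ h

lemma J_mul {n : ℕ} {x : X → ℝ} (h : Dep n x) (p : ℕ → ℝ) :
    J (fun z => x z * p (z n)) = ((∑ j ∈ range (n + 2), p j) / (n + 2)) * J x := by
  have h1 : Dep (n + 1) (fun z => x z * p (z n)) := by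
    intro z z' hz
    have h2 := h z z' fun i hi => hz i (by omega)
    have h3 := hz n (by omega)
    simp only [h2, h3]
  rw [J_eq h1, J_eq h, I, avg_mul h, I_smul]

lemma J_zero : J 0 = 0 := J_eq (n := 0) (x := 0) (Dep.const 0 0)

lemma J_one : J 1 = 1 := J_eq (n := 0) (x := 1) (Dep.const 0 1)

lemma J_nonneg {x : X → ℝ} (hx : Fin x) (h : 0 ≤ x) : 0 ≤ J x := by
  rw [← J_zero]
  exact J_mono ⟨0, Dep.const 0 0⟩ hx h

/-- indicator function -/
noncomputable def ind (b : Set X) : X → ℝ := Set.indicator b 1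

open Classical in
lemma ind_apply (b : Set X) (z : X) : ind b z = if z ∈ b then 1 else 0 := by
  simp [ind, Set.indicator_apply]

lemma ind_nonneg (b : Set X) : 0 ≤ ind b := by
  intro z; rw [ind_apply]; split_ifs <;> simp

lemma ind_le_one (b : Set X) (z : X) : ind b z ≤ 1 := by
  rw [ind_apply]; split_ifs <;> simp

/-- sets depending on finitely many coordinates -/
def FinS (b : Set X) : Prop := ∃ n, ∀ z z' : X, (∀ i < n, z i = z' i) → (z ∈ b ↔ z' ∈ b)

lemma FinS.fin {b : Set X} (h : FinS b) : Fin (ind b) := by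
  obtain ⟨n, hn⟩ := h
  refine ⟨n, fun z z' hz => ?_⟩
  have := hn z z' hz
  classical
  rw [ind_apply, ind_apply]
  by_cases h : z ∈ b
  · rw [if_pos h, if_pos (this.1 h)]
  · rw [if_neg h, if_neg (fun h' => h (this.2 h'))]

lemma FinS.inter {b c : Set X} (hb : FinS b) (hc : FinS c) : FinS (b ∩ c) := by
  obtain ⟨n, hn⟩ := hb
  obtain ⟨m, hm⟩ := hc
  refine ⟨max n m, fun z z' hz => ?_⟩
  rw [Set.mem_inter_iff, Set.mem_inter_iff, hn z z' fun i hi => hz i (lt_max_of_lt_left hi),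
    hm z z' fun i hi => hz i (lt_max_of_lt_right hi)]

lemma FinS.union {b c : Set X} (hb : FinS b) (hc : FinS c) : FinS (b ∪ c) := by
  obtain ⟨n, hn⟩ := hb
  obtain ⟨m, hm⟩ := hc
  refine ⟨max n m, fun z z' hz => ?_⟩
  rw [Set.mem_union, Set.mem_union, hn z z' fun i hi => hz i (lt_max_of_lt_left hi),
    hm z z' fun i hi => hz i (lt_max_of_lt_right hi)]

lemma FinS.diff {b c : Set X} (hb : FinS b) (hc : FinS c) : FinS (b \ c) := by
  obtain ⟨n, hn⟩ := hb
  obtain ⟨m, hm⟩ := hc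
  refine ⟨max n m, fun z z' hz => ?_⟩
  rw [Set.mem_sdiff, Set.mem_sdiff, hn z z' fun i hi => hz i (lt_max_of_lt_left hi),
    hm z z' fun i hi => hz i (lt_max_of_lt_right hi)]

lemma FinS.coord (n : ℕ) (P : ℕ → Prop) : FinS {z : X | P (z n)} := by
  refine ⟨n + 1, fun z z' hz => ?_⟩
  show P (z n) ↔ P (z' n)
  rw [hz n (by omega)]

lemma FinS.empty : FinS (∅ : Set X) := ⟨0, fun _ _ _ => Iff.rfl⟩

lemma FinS.univ : FinS (Set.univ : Set X) := ⟨0, fun _ _ _ => by simp⟩

lemma ind_inter (b c : Set X) : ind (b ∩ c) = ind b * ind c := by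
  classical
  funext z
  simp only [Pi.mul_apply, ind_apply, Set.mem_inter_iff]
  split_ifs <;> simp_all

lemma ind_union {b c : Set X} (h : Disjoint b c) : ind (b ∪ c) = ind b + ind c := by
  classical
  funext z
  simp only [Pi.add_apply, ind_apply, Set.mem_union]
  by_cases h1 : z ∈ b
  · have h2 : z ∉ c := fun h2 => Set.disjoint_left.1 h h1 h2
    simp [h1, h2]
  · simp [h1]

end Pool.Agent.Q58.OAO
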