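import Mathlib

/-!
# Orthogonally additive operators between Riesz spaces
-/

set_option autoImplicit false

namespace Pool.Agent.Q58.OAO

/-- `E` is a (real) Riesz space: an ordered vector space which is a lattice. -/
structure IsRiesz (E : Type*) [AddCommGroup E] [Lattice E] [Module ℝ E] : Prop where
  add_le : ∀ x y c : E, x ≤ y → x + c ≤ y + c
  smul_le : ∀ (r : ℝ) (x y : E), 0 ≤ r → x ≤ y → r • x ≤ r • y

/-- `T` is orthogonally additive: `T (x + y) = T x + T y` whenever `|x| ∧ |y| = 0`. -/
def OrthAdd {E F : Type*} [Lattice E] [AddCommGroup E] [AddCommGroup F] (T : E → F) : Prop :=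
  ∀ x y : E, |x| ⊓ |y| = 0 → T (x + y) = T x + T y

/-- `x = u ⊔ v` as a disjoint sum: `x = u + v` and `u ⊥ v`. -/
def IsDisjSum {E : Type*} [Lattice E] [AddCommGroup E] (x u v : E) : Prop :=
  x = u + v ∧ |u| ⊓ |v| = 0

/-- `U` is the least upper bound of `S` and `T` in the set of all orthogonally additive maps,
ordered pointwise. -/
def IsJoin {E F : Type*} [Lattice E] [AddCommGroup E] [AddCommGroup F] [Preorder F]
    (S T U : E → F) : Prop :=
  OrthAdd U ∧ (∀ x, S x ≤ U x) ∧ (∀ x, T x ≤ U x) ∧
    ∀ V : E → F, OrthAdd V → (∀ x, S x ≤ V x) → (∀ x, T x ≤ V x) → ∀ x, U x ≤ V x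

/-- The set `{S u + T v : x = u ⊔ v}`. -/
def sums {E F : Type*} [Lattice E] [AddCommGroup E] [Add F] (S T : E → F) (x : E) : Set F :=
  {f | ∃ u v : E, IsDisjSum x u v ∧ f = S u + T v}

/-- `F` is Archimedean. -/
def IsArch (F : Type*) [AddCommGroup F] [PartialOrder F] : Prop :=
  ∀ x y : F, (∀ n : ℕ, n • x ≤ y) → x ≤ 0

/-- `G` together with the linear map `J : F → G` is a Dedekind completion of the Riesz space `F`:
`G` is Dedekind complete (every nonempty set which is bounded above has a supremum), `J` is an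
injective lattice homomorphism and every element of `G` is the supremum of the elements of `J F`
below it and the infimum of the elements of `J F` above it. -/
structure IsDedekindCompletion {F G : Type*} [AddCommGroup F] [Lattice F] [Module ℝ F]
    [AddCommGroup G] [Lattice G] [Module ℝ G] (J : F →ₗ[ℝ] G) : Prop where
  complete : ∀ A : Set G, A.Nonempty → BddAbove A → ∃ s, IsLUB A s
  injective : Function.Injective J
  map_sup : ∀ a b : F, J (a ⊔ b) = J a ⊔ J b
  map_inf : ∀ a b : F, J (a ⊓ b) = J a ⊓ J b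
  isLUB : ∀ g : G, IsLUB {h | ∃ f : F, J f ≤ g ∧ h = J f} g
  isGLB : ∀ g : G, IsGLB {h | ∃ f : F, g ≤ J f ∧ h = J f} g

end Pool.Agent.Q58.OAO
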