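import Pool.Agent.Q58.OAO.Avg

/-!
# The densities `f t` and the Riesz space of values
-/

set_option autoImplicit false

namespace Pool.Agent.Q58.OAO

open Finset

/-- the index set: finite lists of pairs (position, set) -/
abbrev K := List (ℕ × Set X)

/-- the oscillating factor at the coordinate `n`; its mean is zero -/
noncomputable def phi (n : ℕ) (j : ℕ) : ℝ := if j = 0 then -((n : ℝ) + 1) else 1

lemma phi_le_one (n j : ℕ) : phi n j ≤ 1 := by
  rw [phi]; split_ifs
  · have : (0:ℝ) ≤ n := n.cast_nonneg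
    linarith
  · exact le_rfl

lemma phi_mean (n : ℕ) : ∑ j ∈ range (n + 2), phi n j = 0 := by
  rw [sum_range_succ']
  simp [phi]

open Classical in
/-- the densities -/
noncomputable def f : K → (X → ℝ)
  | [] => 0
  | (n, b) :: t =>
    if Dep n (ind b) ∧ Dep n (f t) ∧ J (ind b * (1 - f t)) ≤ (1 / 2) ^ (t.length + 2) then
      f t + fun z => (ind b * (1 - f t)) z * phi n (z n)
    else f t

lemma phi_fin (n : ℕ) : Fin (fun z : X => phi n (z n)) := by
  refine ⟨n + 1, fun z z' hz => ?_⟩
  simp only [hz n (by omega)]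

lemma f_fin (t : K) : Fin (f t) := by
  induction t with
  | nil => exact ⟨0, Dep.const 0 0⟩
  | cons a t ih =>
    obtain ⟨n, b⟩ := a
    rw [f]
    split_ifs with h
    · exact ih.add (Fin.mul (Fin.mul ⟨n, h.1⟩ ih.one_sub) (phi_fin n))
    · exact ih

lemma f_le_one (t : K) (z : X) : f t z ≤ 1 := by
  induction t generalizing z with
  | nil => simp [f]
  | cons a t ih =>
    obtain ⟨n, b⟩ := a
    rw [f]
    split_ifs with h
    · simp only [Pi.add_apply, Pi.mul_apply, Pi.sub_apply, Pi.one_apply]
      have h1 := ind_nonneg b z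
      have h2 := ind_le_one b z
      have h3 := phi_le_one n (z n)
      have h4 : 0 ≤ 1 - f t z := by linarith [ih z]
      have h5 : ind b z * (1 - f t z) ≤ 1 - f t z := by nlinarith
      have h6 : 0 ≤ ind b z * (1 - f t z) := mul_nonneg h1 h4
      nlinarith
    · exact ih z

lemma osc_fin {n : ℕ} {b : Set X} (t : K) (h : Dep n (ind b)) :
    Fin (fun z => (ind b * (1 - f t)) z * phi n (z n)) :=
  Fin.mul (Fin.mul ⟨n, h⟩ (f_fin t).one_sub) (phi_fin n)

/-- adding an oscillation at a coordinate on which `x` does not depend -/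
lemma J_osc {n : ℕ} {x : X → ℝ} (h : Dep n x) : J (fun z => x z * phi n (z n)) = 0 := by
  rw [J_mul h, phi_mean, zero_div, zero_mul]

/-- stability: for large `n` the mean over `b'` does not change -/
lemma J_cons {b' : Set X} (hb' : FinS b') (t : K) (b : Set X) :
    ∃ N, ∀ n ≥ N, J (ind b' * f ((n, b) :: t)) = J (ind b' * f t) := by
  obtain ⟨N, hN⟩ := hb'.fin
  refine ⟨N, fun n hn => ?_⟩
  rw [f]
  split_ifs with h
  · rw [mul_add, J_add (hb'.fin.mul (f_fin t))
      (hb'.fin.mul (osc_fin t h.1))]
    have h1 : (ind b' * fun z => (ind b * (1 - f t)) z * phi n (z n))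
        = fun z => (ind b' * (ind b * (1 - f t))) z * phi n (z n) := by
      funext z; simp only [Pi.mul_apply]; ring
    rw [h1, J_osc ((hN.mono hn).mul (h.1.mul h.2.1.one_sub)), add_zero]
  · rfl

/-- the bound for the positive part -/
lemma J_bound {b' : Set X} (hb' : FinS b') (t : K) :
    J (ind b' * f t) ≤ 1 / 2 - (1 / 2) ^ (t.length + 1) := by
  induction t with
  | nil =>
    have : ind b' * f [] = 0 := by simp [f]
    rw [this, J_zero]; norm_num
  | cons a t ih =>
    obtain ⟨n, b⟩ := a
    rw [f]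
    split_ifs with h
    · rw [mul_add, J_add (hb'.fin.mul (f_fin t))
        (hb'.fin.mul (osc_fin t h.1))]
      have h1 : J (ind b' * fun z => (ind b * (1 - f t)) z * phi n (z n))
          ≤ J (ind b * (1 - f t)) := by
        refine J_mono (hb'.fin.mul (osc_fin t h.1))
          (Fin.mul ⟨n, h.1⟩ (f_fin t).one_sub) ?_
        intro z
        simp only [Pi.mul_apply, Pi.sub_apply, Pi.one_apply]
        have h1 := ind_nonneg b z
        have h2 := ind_le_one b' z
        have h2' := ind_nonneg b' z
        have h3 := phi_le_one n (z n)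
        have h4 : 0 ≤ 1 - f t z := by linarith [f_le_one t z]
        have h6 : 0 ≤ ind b z * (1 - f t z) := mul_nonneg h1 h4
        have h7 : ind b z * (1 - f t z) * phi n (z n) ≤ ind b z * (1 - f t z) := by nlinarith
        simp only [Pi.zero_apply] at h2'
        nlinarith
      have h2 := h.2.2
      have h3 : ((n, b) :: t).length = t.length + 1 := rfl
      rw [h3]
      have h4 : ((1:ℝ) / 2) ^ (t.length + 1 + 1) = (1 / 2) ^ (t.length + 2) := rfl
      have h5 : ((1:ℝ) / 2) ^ (t.length + 1) = 2 * (1 / 2) ^ (t.length + 2) := by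
        rw [pow_succ _ (t.length + 1)]; ring
      rw [h4]
      linarith
    · have h3 : ((n, b) :: t).length = t.length + 1 := rfl
      rw [h3]
      have h5 : ((1:ℝ) / 2) ^ (t.length + 1) = 2 * (1 / 2) ^ (t.length + 1 + 1) := by
        rw [pow_succ _ (t.length + 1)]; ring
      have h6 : (0:ℝ) < (1 / 2) ^ (t.length + 1 + 1) := by positivity
      linarith

/-- the set `{z n ≠ 0}` -/
def cc (n : ℕ) : Set X := {z | z n ≠ 0}

lemma cc_fin (n : ℕ) : FinS (cc n) := FinS.coord n (fun j => j ≠ 0)

/-- value of the new density on the set of the modification -/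
lemma J_new {n : ℕ} {b : Set X} {t : K}
    (h : Dep n (ind b) ∧ Dep n (f t) ∧ J (ind b * (1 - f t)) ≤ (1 / 2) ^ (t.length + 2)) :
    J (ind (b ∩ cc n) * f ((n, b) :: t)) = (((n:ℝ) + 1) / (n + 2)) * J (ind b) := by
  have h1 : ind (b ∩ cc n) * f ((n, b) :: t)
      = fun z => ind b z * (if z n = 0 then (0:ℝ) else 1) := by
    classical
    rw [f, if_pos h]
    funext z
    simp only [Pi.add_apply, Pi.mul_apply, Pi.sub_apply, Pi.one_apply, ind_apply,
      Set.mem_inter_iff, cc, phi]
    by_cases h1 : z ∈ b <;> by_cases h2 : z n = 0 <;> simp [h1, h2]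
  rw [h1, J_mul h.1 (fun j => if j = 0 then (0:ℝ) else 1), sum_range_succ']
  simp

end Pool.Agent.Q58.OAO
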