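import Pool.Agent.Q58.OAO.Dens

/-!
# The Riesz spaces and the orthogonally additive maps of the example
-/

set_option autoImplicit false

namespace Pool.Agent.Q58.OAO

open Finset

/-- functions of finitely many coordinates, as a submodule -/
def Esub : Submodule ℝ (X → ℝ) where
  carrier := {x | Fin x}
  add_mem' := fun {_ _} h h' => h.add h'
  zero_mem' := ⟨0, Dep.const 0 0⟩
  smul_mem' := fun c _ ⟨n, hn⟩ => ⟨n, hn.smul c⟩

/-- the Riesz space `E` of the functions of finitely many coordinates -/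
abbrev E : Type := Esub

lemma Fin.sup {x y : X → ℝ} (hx : Fin x) (hy : Fin y) : Fin (x ⊔ y) := by
  obtain ⟨n, hn⟩ := hx
  obtain ⟨m, hm⟩ := hy
  refine ⟨max n m, fun z z' hz => ?_⟩
  have h1 := hn.mono (le_max_left n m) z z' hz
  have h2 := hm.mono (le_max_right n m) z z' hz
  simp only [Pi.sup_apply, h1, h2]

lemma Fin.inf {x y : X → ℝ} (hx : Fin x) (hy : Fin y) : Fin (x ⊓ y) := by
  obtain ⟨n, hn⟩ := hx
  obtain ⟨m, hm⟩ := hy
  refine ⟨max n m, fun z z' hz => ?_⟩
  have h1 := hn.mono (le_max_left n m) z z' hz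
  have h2 := hm.mono (le_max_right n m) z z' hz
  simp only [Pi.inf_apply, h1, h2]

noncomputable instance : Lattice E :=
  Subtype.lattice (P := fun x => x ∈ Esub) (fun _ _ h h' => Fin.sup h h') (fun _ _ h h' => Fin.inf h h')

/-- functions on the index set which are eventually constant along the sequences
`n ↦ (n, b) :: t`, as a submodule -/
def Fsub : Submodule ℝ (K → ℝ) where
  carrier := {g | ∀ (t : K) (b : Set X), ∃ N, ∀ n ≥ N, g ((n, b) :: t) = g t}
  add_mem' := fun {g h} hg hh t b => by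
    obtain ⟨N, hN⟩ := hg t b
    obtain ⟨M, hM⟩ := hh t b
    refine ⟨max N M, fun n hn => ?_⟩
    simp only [Pi.add_apply, hN n (le_trans (le_max_left _ _) hn),
      hM n (le_trans (le_max_right _ _) hn)]
  zero_mem' := fun _ _ => ⟨0, fun _ _ => rfl⟩
  smul_mem' := fun c g hg t b => by
    obtain ⟨N, hN⟩ := hg t b
    exact ⟨N, fun n hn => by simp only [Pi.smul_apply, hN n hn]⟩

/-- the Riesz space `F` -/
abbrev F : Type := Fsub

noncomputable instance : Lattice F :=
  Subtype.lattice (P := fun x => x ∈ Fsub)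
    (fun g h hg hh t b => by
      obtain ⟨N, hN⟩ := hg t b
      obtain ⟨M, hM⟩ := hh t b
      refine ⟨max N M, fun n hn => ?_⟩
      simp only [Pi.sup_apply, hN n (le_trans (le_max_left _ _) hn),
        hM n (le_trans (le_max_right _ _) hn)])
    (fun g h hg hh t b => by
      obtain ⟨N, hN⟩ := hg t b
      obtain ⟨M, hM⟩ := hh t b
      refine ⟨max N M, fun n hn => ?_⟩
      simp only [Pi.inf_apply, hN n (le_trans (le_max_left _ _) hn),
        hM n (le_trans (le_max_right _ _) hn)])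

lemma E_le {x y : E} : x ≤ y ↔ ∀ z, x.1 z ≤ y.1 z := Iff.rfl

lemma F_le {x y : F} : x ≤ y ↔ ∀ t, x.1 t ≤ y.1 t := Iff.rfl

lemma E_sup (x y : E) (z : X) : (x ⊔ y).1 z = max (x.1 z) (y.1 z) := rfl

lemma E_inf (x y : E) (z : X) : (x ⊓ y).1 z = min (x.1 z) (y.1 z) := rfl

lemma E_abs (x : E) (z : X) : (|x|).1 z = |x.1 z| := rfl

instance : IsOrderedAddMonoid E where
  add_le_add_left := fun x y h c z => by
    have := h z
    show x.1 z + c.1 z ≤ y.1 z + c.1 z
    linarith

instance : IsOrderedAddMonoid F where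
  add_le_add_left := fun x y h c z => by
    have := h z
    show x.1 z + c.1 z ≤ y.1 z + c.1 z
    linarith

instance : PosSMulMono ℝ E where
  smul_le_smul_of_nonneg_left := fun c hc x y h z => by
    show c * x.1 z ≤ c * y.1 z
    exact mul_le_mul_of_nonneg_left (h z) hc

instance : PosSMulMono ℝ F where
  smul_le_smul_of_nonneg_left := fun c hc x y h z => by
    show c * x.1 z ≤ c * y.1 z
    exact mul_le_mul_of_nonneg_left (h z) hc

lemma F_arch : IsArch F := by
  intro x y h t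
  by_contra hx
  have hx' : (0:ℝ) < x.1 t := not_le.1 hx
  obtain ⟨n, hn⟩ := exists_nat_gt (y.1 t / x.1 t)
  have h1 : (n • x).1 t ≤ y.1 t := h n t
  have h2 : (n • x).1 t = n * x.1 t := by
    rw [← nsmul_eq_mul]; rfl
  rw [h2] at h1
  rw [div_lt_iff₀ hx'] at hn
  linarith

/-- disjointness in `E` is pointwise -/
lemma E_disj {x y : E} (h : |x| ⊓ |y| = 0) (z : X) : x.1 z = 0 ∨ y.1 z = 0 := by
  have h1 : (|x| ⊓ |y|).1 z = 0 := by rw [h]; rfl
  rw [E_inf, E_abs, E_abs] at h1
  rcases min_choice |x.1 z| |y.1 z| with h2 | h2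
  · left; rw [h2] at h1; exact abs_eq_zero.1 h1
  · right; rw [h2] at h1; exact abs_eq_zero.1 h1

lemma E_disj' {x y : E} (h : ∀ z, x.1 z = 0 ∨ y.1 z = 0) : |x| ⊓ |y| = 0 := by
  apply Subtype.ext
  funext z
  show min |x.1 z| |y.1 z| = 0
  rcases h z with h1 | h1
  · rw [h1, abs_zero]; exact min_eq_left (abs_nonneg _)
  · rw [h1, abs_zero]; exact min_eq_right (abs_nonneg _)

/-- the set `{x = 1}` -/
def one (x : E) : Set X := {z | x.1 z = 1}

lemma one_fin (x : E) : FinS (one x) := by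
  obtain ⟨n, hn⟩ := x.2
  exact ⟨n, fun z z' hz => by show x.1 z = 1 ↔ x.1 z' = 1; rw [hn z z' hz]⟩

lemma one_add {x y : E} (h : |x| ⊓ |y| = 0) :
    one (x + y) = one x ∪ one y ∧ Disjoint (one x) (one y) := by
  constructor
  · ext z
    show x.1 z + y.1 z = 1 ↔ x.1 z = 1 ∨ y.1 z = 1
    rcases E_disj h z with h1 | h1 <;> simp [h1]
  · rw [Set.disjoint_left]
    intro z h1 h2
    have h1' : x.1 z = 1 := h1
    have h2' : y.1 z = 1 := h2
    rcases E_disj h z with h3 | h3
    · rw [h3] at h1'; exact zero_ne_one h1'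
    · rw [h3] at h2'; exact zero_ne_one h2'

/-- a map `E → F` from a charge -/
noncomputable def mu (b : Set X) (hb : FinS b) : F :=
  ⟨fun t => J (ind b * f t), fun t c => J_cons hb t c⟩

lemma mu_union {b c : Set X} (hb : FinS b) (hc : FinS c) (h : Disjoint b c) :
    mu (b ∪ c) (hb.union hc) = mu b hb + mu c hc := by
  apply Subtype.ext
  funext t
  show J (ind (b ∪ c) * f t) = J (ind b * f t) + J (ind c * f t)
  rw [ind_union h, add_mul, J_add (hb.fin.mul (f_fin t)) (hc.fin.mul (f_fin t))]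

/-- constants -/
def cst (r : ℝ) : F := ⟨fun _ => r, fun _ _ => ⟨0, fun _ _ => rfl⟩⟩

/-- the map `S` -/
noncomputable def S (x : E) : F := mu (one x) (one_fin x)

/-- the map `U` -/
noncomputable def U (x : E) : F := cst (J (ind (one x)))

lemma S_add : OrthAdd S := by
  intro x y h
  obtain ⟨h1, h2⟩ := one_add h
  rw [S, S, S, ← mu_union (one_fin x) (one_fin y) h2]
  congr 1

lemma U_add : OrthAdd U := by
  intro x y h
  obtain ⟨h1, h2⟩ := one_add h
  rw [U, h1, ind_union h2, J_add (one_fin x).fin (one_fin y).fin]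
  rfl

/-- the indicator of `b` in `E` -/
noncomputable def ie (b : Set X) (hb : FinS b) : E := ⟨ind b, hb.fin⟩

lemma one_ie (b : Set X) (hb : FinS b) : one (ie b hb) = b := by
  classical
  ext z
  show ind b z = 1 ↔ z ∈ b
  rw [ind_apply]
  split_ifs with h <;> simp [h]

lemma ie_union {b c : Set X} (hb : FinS b) (hc : FinS c) (h : Disjoint b c) {V : E → F}
    (hV : OrthAdd V) : V (ie (b ∪ c) (hb.union hc)) = V (ie b hb) + V (ie c hc) := by
  have h1 : ie (b ∪ c) (hb.union hc) = ie b hb + ie c hc := by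
    apply Subtype.ext
    exact ind_union h
  rw [h1]
  apply hV
  apply E_disj'
  intro z
  classical
  show ind b z = 0 ∨ ind c z = 0
  rw [ind_apply, ind_apply]
  by_cases h2 : z ∈ b
  · right; rw [if_neg (Set.disjoint_left.1 h h2)]
  · left; rw [if_neg h2]

lemma ie_congr {b c : Set X} (h : b = c) (hb : FinS b) (hc : FinS c) : ie b hb = ie c hc := by
  subst h; rfl

section core

variable {V : E → F} (hV : OrthAdd V) (h0 : ∀ x, 0 ≤ V x) (hS : ∀ x, S x ≤ V x)

include hV h0 hS

/-- small sets -/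
lemma core_small (t : K) {b : Set X} (hb : FinS b)
    (h : J (ind b * (1 - f t)) ≤ (1 / 2) ^ (t.length + 2)) :
    J (ind b) ≤ (V (ie b hb)).1 t := by
  obtain ⟨N, hN⟩ := (V (ie b hb)).2 t b
  obtain ⟨N1, hN1⟩ := hb.fin
  obtain ⟨N2, hN2⟩ := f_fin t
  have key : ∀ n ≥ max N (max N1 N2), (((n:ℝ) + 1) / (n + 2)) * J (ind b) ≤ (V (ie b hb)).1 t := by
    intro n hn
    have hn0 : N ≤ n := le_trans (le_max_left _ _) hn
    have hn1 : N1 ≤ n := le_trans (le_trans (le_max_left _ _) (le_max_right _ _)) hn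
    have hn2 : N2 ≤ n := le_trans (le_trans (le_max_right _ _) (le_max_right _ _)) hn
    rw [← hN n hn0, ← J_new (t := t) ⟨hN1.mono hn1, hN2.mono hn2, h⟩]
    have hbc : FinS (b ∩ cc n) := hb.inter (cc_fin n)
    have hbd : FinS (b \ cc n) := hb.diff (cc_fin n)
    have hd : Disjoint (b ∩ cc n) (b \ cc n) := by
      rw [Set.disjoint_left]; intro z h1 h2; exact h2.2 h1.2
    have h1 : V (ie b hb) = V (ie (b ∩ cc n) hbc) + V (ie (b \ cc n) hbd) := by
      rw [← ie_union hbc hbd hd hV]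
      congr 1
      exact ie_congr (Set.inter_union_sdiff b (cc n)).symm _ _
    rw [h1]
    have h2 := hS (ie (b ∩ cc n) hbc) ((n, b) :: t)
    have h3 := h0 (ie (b \ cc n) hbd) ((n, b) :: t)
    have h4 : (S (ie (b ∩ cc n) hbc)).1 ((n, b) :: t) = J (ind (b ∩ cc n) * f ((n, b) :: t)) := by
      show J (ind (one (ie (b ∩ cc n) hbc)) * f ((n, b) :: t)) = _
      rw [one_ie]
    have h3' : (0:ℝ) ≤ (V (ie (b \ cc n) hbd)).1 ((n, b) :: t) := h3
    rw [← h4]
    show _ ≤ (V (ie (b ∩ cc n) hbc)).1 ((n, b) :: t) + (V (ie (b \ cc n) hbd)).1 ((n, b) :: t)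
    have h2' : (S (ie (b ∩ cc n) hbc)).1 ((n, b) :: t) ≤ (V (ie (b ∩ cc n) hbc)).1 ((n, b) :: t) := h2
    linarith
  have hlim : Filter.Tendsto (fun n : ℕ => (((n:ℝ) + 1) / (n + 2)) * J (ind b)) Filter.atTop
      (nhds (1 * J (ind b))) := by
    apply Filter.Tendsto.mul_const
    have h1 : Filter.Tendsto (fun n : ℕ => (1:ℝ) - 1 / ((n:ℝ) + 2)) Filter.atTop (nhds (1 - 0)) := by
      apply tendsto_const_nhds.sub
      apply Filter.Tendsto.div_atTop tendsto_const_nhds
      exact Filter.tendsto_atTop_add_const_right _ _ tendsto_natCast_atTop_atTop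
    rw [sub_zero] at h1
    refine h1.congr fun n => ?_
    have : (n:ℝ) + 2 ≠ 0 := by positivity
    field_simp
    ring
  rw [one_mul] at hlim
  exact le_of_tendsto hlim (Filter.eventually_atTop.2 ⟨_, key⟩)

omit h0 hS in
/-- splitting along one coordinate -/
lemma core_split (t : K) {b : Set X} (hb : FinS b) (m k : ℕ) :
    ∑ j ∈ range k, (V (ie (b ∩ {z | z m = j}) (hb.inter (FinS.coord m (fun i => i = j))))).1 t
      + (V (ie (b ∩ {z | k ≤ z m}) (hb.inter (FinS.coord m (fun i => k ≤ i))))).1 t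
      = (V (ie b hb)).1 t := by
  induction k with
  | zero =>
    rw [range_zero, sum_empty, zero_add]
    have h5 : ie (b ∩ {z : X | 0 ≤ z m}) (hb.inter (FinS.coord m (fun i => 0 ≤ i))) = ie b hb := by
      apply ie_congr
      ext z
      constructor
      · exact fun h => h.1
      · exact fun h => ⟨h, Nat.zero_le _⟩
    rw [h5]
  | succ k ih =>
    rw [sum_range_succ, ← ih]
    have h1 : FinS (b ∩ {z : X | z m = k}) := hb.inter (FinS.coord m (fun i => i = k))
    have h2 : FinS (b ∩ {z : X | k + 1 ≤ z m}) := hb.inter (FinS.coord m (fun i => k + 1 ≤ i))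
    have hd : Disjoint (b ∩ {z : X | z m = k}) (b ∩ {z : X | k + 1 ≤ z m}) := by
      rw [Set.disjoint_left]
      intro z h3 h4
      have h3' : z m = k := h3.2
      have h4' : k + 1 ≤ z m := h4.2
      omega
    have h3 := ie_union h1 h2 hd hV
    have h4 : ie (b ∩ {z : X | k ≤ z m}) (hb.inter (FinS.coord m (fun i => k ≤ i)))
        = ie ((b ∩ {z : X | z m = k}) ∪ (b ∩ {z : X | k + 1 ≤ z m})) (h1.union h2) := by
      apply ie_congr
      ext z
      constructor
      · rintro ⟨h5, h6⟩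
        have h6' : k ≤ z m := h6
        rcases Nat.eq_or_lt_of_le h6' with h7 | h7
        · exact Or.inl ⟨h5, h7.symm⟩
        · exact Or.inr ⟨h5, h7⟩
      · rintro (⟨h5, h6⟩ | ⟨h5, h6⟩)
        · have h6' : z m = k := h6
          exact ⟨h5, h6'.ge⟩
        · have h6' : k + 1 ≤ z m := h6
          exact ⟨h5, (Nat.le_succ k).trans h6'⟩
    rw [h4, h3]
    show _ + (V (ie (b ∩ {z : X | k + 1 ≤ z m}) h2)).1 t
      = _ + ((V (ie (b ∩ {z : X | z m = k}) h1)).1 t + (V (ie (b ∩ {z : X | k + 1 ≤ z m}) h2)).1 t)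
    rw [add_assoc]

/-- all sets -/
lemma core (t : K) {b : Set X} (hb : FinS b) : J (ind b) ≤ (V (ie b hb)).1 t := by
  obtain ⟨N1, hN1⟩ := hb.fin
  obtain ⟨N2, hN2⟩ := f_fin t
  set c : ℝ := J (ind b * (1 - f t)) with hc
  have hpos : (0:ℝ) < (1 / 2) ^ (t.length + 2) := by positivity
  obtain ⟨N, hN⟩ := exists_nat_gt (c / (1 / 2) ^ (t.length + 2))
  set m := max N (max N1 N2) with hm
  have hm0 : N ≤ m := le_max_left _ _
  have hm1 : N1 ≤ m := le_trans (le_max_left _ _) (le_max_right _ _)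
  have hm2 : N2 ≤ m := le_trans (le_max_right _ _) (le_max_right _ _)
  have hsum : ∀ j < m + 2, ∑ i ∈ range (m + 2), (if i = j then (1:ℝ) else 0) = 1 := by
    intro j hj
    rw [sum_ite_eq' (range (m + 2)) j]
    simp [hj]
  have hcyl : ∀ (x : X → ℝ), Dep m x → ∀ j < m + 2,
      J (fun z => x z * (if z m = j then (1:ℝ) else 0)) = (1 / (m + 2)) * J x := by
    intro x hx j hj
    rw [J_mul hx (fun i => if i = j then (1:ℝ) else 0), hsum j hj]
  have hinter : ∀ j : ℕ, ind (b ∩ {z : X | z m = j}) = fun z => ind b z * (if z m = j then (1:ℝ) else 0) := by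
    intro j
    classical
    rw [ind_inter]
    funext z
    simp only [Pi.mul_apply]
    congr 1
    rw [ind_apply]
    by_cases h5 : z m = j
    · rw [if_pos h5, if_pos (show z ∈ {z : X | z m = j} from h5)]
    · rw [if_neg h5, if_neg (show z ∉ {z : X | z m = j} from h5)]
  have hsmall : ∀ j < m + 2, J (ind (b ∩ {z : X | z m = j}) * (1 - f t)) ≤ (1 / 2) ^ (t.length + 2) := by
    intro j hj
    have h1 : ind (b ∩ {z : X | z m = j}) * (1 - f t)
        = fun z => (ind b * (1 - f t)) z * (if z m = j then (1:ℝ) else 0) := by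
      rw [hinter]
      funext z
      simp only [Pi.mul_apply]
      ring
    rw [h1, hcyl _ ((hN1.mono hm1).mul (hN2.mono hm2).one_sub) j hj, ← hc]
    rw [div_lt_iff₀ hpos] at hN
    have h2 : (N:ℝ) ≤ m + 2 := by
      have : (N:ℝ) ≤ m := by exact_mod_cast hm0
      linarith
    have h3 : (0:ℝ) < m + 2 := by positivity
    rw [one_div, inv_mul_le_iff₀ h3]
    have h4 : (N:ℝ) * (1 / 2) ^ (t.length + 2) ≤ (m + 2) * (1 / 2) ^ (t.length + 2) :=
      mul_le_mul_of_nonneg_right h2 hpos.le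
    linarith
  have h1 := core_split hV t hb m (m + 2)
  rw [← h1]
  have h2 : (0:ℝ) ≤ (V (ie (b ∩ {z | m + 2 ≤ z m}) (hb.inter (FinS.coord m (fun i => m + 2 ≤ i))))).1 t :=
    h0 _ t
  have h3 : ∑ j ∈ range (m + 2), (1 / ((m:ℝ) + 2)) * J (ind b)
      ≤ ∑ j ∈ range (m + 2), (V (ie (b ∩ {z | z m = j}) (hb.inter (FinS.coord m (fun i => i = j))))).1 t := by
    apply sum_le_sum
    intro j hj
    rw [mem_range] at hj
    rw [← hcyl _ (hN1.mono hm1) j hj, ← hinter]
    exact core_small hV h0 hS t _ (hsmall j hj)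
  have h4 : ∑ j ∈ range (m + 2), (1 / ((m:ℝ) + 2)) * J (ind b) = J (ind b) := by
    rw [sum_const, card_range, nsmul_eq_mul]
    push_cast
    have : (m:ℝ) + 2 ≠ 0 := by positivity
    field_simp
  linarith

/-- the lower bound for every majorant -/
theorem U_le (x : E) : U x ≤ V x := by
  intro t
  show J (ind (one x)) ≤ (V x).1 t
  refine le_trans (core hV h0 hS t (one_fin x)) ?_
  set y : E := x - ie (one x) (one_fin x) with hy
  have h1 : V x = V (ie (one x) (one_fin x)) + V y := by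
    have h2 : x = ie (one x) (one_fin x) + y := by rw [hy]; abel
    conv_lhs => rw [h2]
    apply hV
    apply E_disj'
    intro z
    classical
    show ind (one x) z = 0 ∨ x.1 z - ind (one x) z = 0
    rw [ind_apply]
    by_cases h3 : z ∈ one x
    · right
      rw [if_pos h3]
      have h4 : x.1 z = 1 := h3
      rw [h4]; ring
    · left; rw [if_neg h3]
  rw [h1]
  have h2 : (0:ℝ) ≤ (V y).1 t := h0 y t
  show _ ≤ (V (ie (one x) (one_fin x))).1 t + (V y).1 t
  linarith

end core

lemma S_le_U (x : E) : S x ≤ U x := by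
  intro t
  show J (ind (one x) * f t) ≤ J (ind (one x))
  refine J_mono ((one_fin x).fin.mul (f_fin t)) (one_fin x).fin ?_
  intro z
  have h1 := f_le_one t z
  have h2 := ind_nonneg (one x) z
  simp only [Pi.zero_apply] at h2
  simp only [Pi.mul_apply]
  nlinarith

lemma U_nonneg (x : E) : 0 ≤ U x := by
  intro t
  show (0:ℝ) ≤ J (ind (one x))
  exact J_nonneg (one_fin x).fin (ind_nonneg _)

/-- `U` is the join of `S` and `0`. -/
theorem isJoin : IsJoin S (0 : E → F) U :=
  ⟨U_add, S_le_U, U_nonneg, fun _ hV hS h0 x => U_le hV h0 hS x⟩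

lemma S_le_half (x : E) : S x ≤ cst (1 / 2) := by
  intro t
  show J (ind (one x) * f t) ≤ 1 / 2
  have h1 := J_bound (one_fin x) t
  have h2 : (0:ℝ) < (1 / 2) ^ (t.length + 1) := by positivity
  linarith

/-- the constant function one in `E` -/
noncomputable def one1 : E := ie Set.univ FinS.univ

lemma U_one1 : U one1 = cst 1 := by
  rw [U, one1, one_ie]
  have : ind Set.univ = 1 := by
    funext z; simp [ind]
  rw [this, J_one]

lemma E_riesz : IsRiesz E :=
  ⟨fun x y c h z => by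
    have := h z
    show x.1 z + c.1 z ≤ y.1 z + c.1 z
    linarith, fun r x y hr h z => by
    show r * x.1 z ≤ r * y.1 z
    exact mul_le_mul_of_nonneg_left (h z) hr⟩

lemma F_riesz : IsRiesz F :=
  ⟨fun x y c h z => by
    have := h z
    show x.1 z + c.1 z ≤ y.1 z + c.1 z
    linarith, fun r x y hr h z => by
    show r * x.1 z ≤ r * y.1 z
    exact mul_le_mul_of_nonneg_left (h z) hr⟩

lemma zero_add' : OrthAdd (0 : E → F) := fun _ _ _ => by
  show (0 : F) = 0 + 0
  rw [add_zero]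

/-! ### The suprema -/

lemma S_zero : S 0 = 0 := by
  have h := S_add 0 0 (by simp)
  rw [add_zero] at h
  exact left_eq_add.1 h

lemma disj_zero {x u v : E} (h : IsDisjSum x u v) {z : X} (hz : x.1 z = 0) :
    u.1 z = 0 ∧ v.1 z = 0 := by
  have h1 : x.1 z = u.1 z + v.1 z := by rw [h.1]; rfl
  rcases E_disj h.2 z with h2 | h2
  · refine ⟨h2, ?_⟩
    rw [h2, hz] at h1; linarith
  · refine ⟨?_, h2⟩
    rw [h2, hz] at h1; linarith

/-- the support of `x` -/
def supp (x : E) : Set X := {z | x.1 z ≠ 0}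

lemma supp_fin (x : E) : FinS (supp x) := by
  obtain ⟨n, hn⟩ := x.2
  exact ⟨n, fun z z' hz => by show x.1 z ≠ 0 ↔ x.1 z' ≠ 0; rw [hn z z' hz]⟩

/-- restriction of `u` to a set -/
noncomputable def res (b : Set X) (hb : FinS b) (u : E) : E := ⟨ind b * u.1, hb.fin.mul u.2⟩

lemma res_apply_of_mem {b : Set X} {hb : FinS b} {u : E} {z : X} (h : z ∈ b) :
    (res b hb u).1 z = u.1 z := by
  classical
  show ind b z * u.1 z = _
  rw [ind_apply, if_pos h, one_mul]

lemma res_apply_of_notMem {b : Set X} {hb : FinS b} {u : E} {z : X} (h : z ∉ b) :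
    (res b hb u).1 z = 0 := by
  classical
  show ind b z * u.1 z = _
  rw [ind_apply, if_neg h, zero_mul]

open Pointwise in
lemma sums_add {x y : E} (h : |x| ⊓ |y| = 0) :
    sums S (0 : E → F) (x + y) = sums S 0 x + sums S 0 y := by
  ext g
  constructor
  · rintro ⟨u, v, huv, rfl⟩
    set u1 : E := res (supp x) (supp_fin x) u with hu1
    set u2 : E := u - u1 with hu2
    have hval : ∀ z, x.1 z + y.1 z = u.1 z + v.1 z := fun z => by
      have : (x + y).1 z = (u + v).1 z := by rw [huv.1]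
      exact this
    have hpt : ∀ z, (u1.1 z = 0 ∨ x.1 z - u1.1 z = 0) ∧ (u2.1 z = 0 ∨ y.1 z - u2.1 z = 0)
        ∧ (u1.1 z = 0 ∨ u2.1 z = 0) := by
      intro z
      have e2 : u2.1 z = u.1 z - u1.1 z := rfl
      by_cases hz : x.1 z = 0
      · have e1 : u1.1 z = 0 := res_apply_of_notMem (fun h' => h' hz)
        rw [e2, e1]
        refine ⟨Or.inl rfl, ?_, Or.inl rfl⟩
        rcases E_disj huv.2 z with h3 | h3
        · left; rw [h3]; ring
        · right
          have := hval z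
          rw [hz, h3] at this
          linarith
      · have e1 : u1.1 z = u.1 z := res_apply_of_mem hz
        have hy : y.1 z = 0 := (E_disj h z).resolve_left hz
        rw [e2, e1]
        refine ⟨?_, Or.inl (by ring), Or.inr (by ring)⟩
        rcases E_disj huv.2 z with h3 | h3
        · left; exact h3
        · right
          have := hval z
          rw [hy, h3] at this
          linarith
    refine Set.mem_add.2 ⟨S u1 + 0, ⟨u1, x - u1, ⟨by abel, E_disj' fun z => (hpt z).1⟩, rfl⟩,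
      S u2 + 0, ⟨u2, y - u2, ⟨by abel, E_disj' fun z => (hpt z).2.1⟩, rfl⟩, ?_⟩
    have h4 : S u = S u1 + S u2 := by
      rw [← S_add u1 u2 (E_disj' fun z => (hpt z).2.2)]
      congr 1
      rw [hu2]; abel
    show _ = S u + 0
    rw [h4]; abel
  · intro hg
    obtain ⟨g1, ⟨u1, v1, h1, rfl⟩, g2, ⟨u2, v2, h2, rfl⟩, rfl⟩ := Set.mem_add.1 hg
    have key : ∀ z, ((u1 + u2).1 z = 0 ∨ (v1 + v2).1 z = 0) ∧ (u1.1 z = 0 ∨ u2.1 z = 0) := by
      intro z
      show (u1.1 z + u2.1 z = 0 ∨ v1.1 z + v2.1 z = 0) ∧ _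
      rcases E_disj h z with h3 | h3
      · obtain ⟨e1, e2⟩ := disj_zero h1 h3
        rw [e1, e2, zero_add, zero_add]
        exact ⟨E_disj h2.2 z, Or.inl rfl⟩
      · obtain ⟨e1, e2⟩ := disj_zero h2 h3
        rw [e1, e2, add_zero, add_zero]
        exact ⟨E_disj h1.2 z, Or.inr rfl⟩
    refine ⟨u1 + u2, v1 + v2, ⟨by rw [h1.1, h2.1]; abel, E_disj' fun z => (key z).1⟩, ?_⟩
    rw [S_add u1 u2 (E_disj' fun z => (key z).2)]
    show _ = S u1 + S u2 + 0
    show (S u1 + 0) + (S u2 + 0) = _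
    abel

/-- For some `x` the supremum of the set `{S u + 0 : x = u ⊔ v}` does not exist in `F`. -/
theorem exists_no_sup : ∃ x : E, ¬ ∃ s : F, IsLUB (sums S (0 : E → F) x) s := by
  by_contra hcon
  push Not at hcon
  choose s hs using hcon
  have hV : OrthAdd s := by
    intro x y h
    have h1 := hs (x + y)
    rw [sums_add h] at h1
    exact h1.unique ((hs x).add (hs y))
  have hS : ∀ x, S x ≤ s x := fun x => (hs x).1 ⟨x, 0, ⟨by abel, by simp⟩, by
    show S x = S x + 0
    rw [add_zero]⟩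
  have h0 : ∀ x, (0 : F) ≤ s x := fun x => (hs x).1 ⟨0, x, ⟨by abel, by simp⟩, by
    show 0 = S 0 + 0
    rw [S_zero, add_zero]⟩
  have h1 := U_le hV h0 hS one1
  rw [U_one1] at h1
  have h2 : s one1 ≤ cst (1 / 2) := by
    refine (hs one1).2 ?_
    rintro _ ⟨u, v, _, rfl⟩
    show S u + 0 ≤ _
    rw [add_zero]
    exact S_le_half u
  have h3 : (1:ℝ) ≤ 1 / 2 := (h1.trans h2) []
  norm_num at h3

end Pool.Agent.Q58.OAO
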